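import Pool.Agent.Helper67.EQP.AMain
import Pool.Agent.Helper67.EQP.CCirc

set_option autoImplicit false

namespace Pool.Agent.Results.MP_2eaaa0_lc.AdviceOracle

open Pool.Agent.Helper67.EQP

open Classical in
/-- Exact quantum polynomial time is hard on average for the polynomial hierarchy with advice,
relative to an oracle: let `t`, `k` be such that `(t n + n)^{a (k n + 1)} < 2^n` for all `a` and all
large `n` (for example `t n = n` and `k n = 1`: the polynomial hierarchy), and let `M i` be
alternating oracle machines with advice: time, advice length and length of the guesses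
`(t n)^c + c`, and `c * k n` alternations. There is an oracle `A` such that
* for every string `κ` the explicit quantum circuit `kcirc κ`, which has three oracle gates and
  linear size, outputs 0 or 1 with probability 1 (let `L` be the language of the strings `κ` for
  which the output is 1);
* for all `i`, `b`, all large `n` and every advice string, the machine `M i` decides membership in
  `L` correctly for at most `(1/2 + (t n + n)^{-b}) 2^n` of the inputs of length `n`. -/
theorem result :
    (∃ Γ : Finset (Matrix (Fin 3 → Bool) (Fin 3 → Bool) ℂ),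
      (∀ U ∈ Γ, U ∈ Matrix.unitaryGroup (Fin 3 → Bool) ℂ) ∧
      ∀ κ, (∀ U e, QOp.gate U e ∈ (kcirc κ).ops → U ∈ Γ) ∧
        (∀ l, QOp.query l ∈ (kcirc κ).ops → l.length = 13 * κ.length + 20) ∧
        (kcirc κ).ops.countP QOp.isQuery = 3 ∧ (kcirc κ).ops.length = 109 * κ.length + 158 ∧
        Fintype.card (kcirc κ).W = 25 * κ.length + 38) ∧
    Slow (fun n => n) (fun _ => 1) ∧
    ∀ t k : ℕ → ℕ, Slow t k → ∀ M : ℕ → AMachine t k,
      ∃ A : List Bool → Bool,
        (∀ κ, (kcirc κ).acceptProb A = 0 ∨ (kcirc κ).acceptProb A = 1) ∧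
        ∀ i b, ∃ n0, ∀ n ≥ n0, ∀ α : Fin (t n ^ (M i).c + (M i).c) → Bool,
          ((Finset.univ.filter (fun x : Fin n → Bool => ((M i).Accepts A x α ↔
            (kcirc (List.ofFn x)).acceptProb A = 1))).card : ℝ) ≤
              (1 / 2 + 1 / ((t n + n : ℕ) : ℝ) ^ b) * 2 ^ n := by
  refine ⟨⟨gateSet, gateSet_unitary, fun κ => ⟨kops_gates κ, kops_query κ, kops_queries κ,
    kops_length κ, kcard κ⟩⟩, slow_poly, ?_⟩
  intro t k ht M
  obtain ⟨ω, h1, h2⟩ := exists_advice ht M
  set X : Cont := fun κ => (ω κ).2 with hX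
  have hacc : ∀ κ, (kcirc κ).acceptProb (AX X) = if (ω κ).1 = true then 1 else 0 := by
    intro κ
    rw [kcirc_acceptProb κ (AX X) (X κ) (AX_bstr X κ)]
    split_ifs with h
    · exact (three_query (par κ)).1 _ ((h1 κ).1 h)
    · exact (three_query (par κ)).2 _ ((h1 κ).2 h)
  refine ⟨AX X, ?_, ?_⟩
  · intro κ
    rw [hacc]
    split_ifs
    · exact Or.inr rfl
    · exact Or.inl rfl
  · intro i b
    obtain ⟨n0, hn0⟩ := h2 i b
    refine ⟨n0, fun n hn α => ?_⟩
    refine le_trans (le_of_eq ?_) (hn0 n hn α)
    congr 2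
    ext x
    rw [Finset.mem_filter, Finset.mem_filter]
    apply and_congr_right
    intro _
    rw [hacc]
    cases hb : (ω (List.ofFn x)).1
    · simp
    · simp

end Pool.Agent.Results.MP_2eaaa0_lc.AdviceOracle
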