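import Pool.Agent.Helper67.EQP.CCirc

set_option autoImplicit false

namespace Pool.Agent.Results.MP_2eaaa0_lc.CollapsedHierarchy

open Pool.Agent.Helper67.EQP

open Classical in
/-- An oracle `B` relative to which `P = NP` (hence `PH = P`), exact quantum polynomial time contains
`PSPACE`, and yet exact quantum polynomial time is not contained in `P = PH`: let `N i` be
nondeterministic oracle machines, let `F i` be arbitrary oracle functions which depend only on
strings of length at most `space`, and let `M i` be deterministic oracle machines with time bounds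
`(t n)^c + c`, where `t` is such that `(t n + n)^{a log (t n + n)} < 2^n` for all `a` and all large
`n` (for example `t n = n`: polynomial time). There is an oracle `B` such that
* one query to `B` decides whether `N i` with the oracle `B` accepts `x`;
* the explicit quantum circuit with the code of `(F i, x)` and the oracle `B`, which has three oracle
  gates and linear size in the length of the code, outputs `F i B x` with probability 1;
* the quantum circuits with the codes `1^n` output 0 or 1 with probability 1, the language `L` of
  the `n` for which the output is 1 is infinite, and no machine `M i` with the oracle `B` accepts an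
  infinite subset of `L`. -/
theorem result :
    (∃ Γ : Finset (Matrix (Fin 3 → Bool) (Fin 3 → Bool) ℂ),
      (∀ U ∈ Γ, U ∈ Matrix.unitaryGroup (Fin 3 → Bool) ℂ) ∧
      ∀ κ, (∀ U e, QOp.gate U e ∈ (kcirc κ).ops → U ∈ Γ) ∧
        (∀ l, QOp.query l ∈ (kcirc κ).ops → l.length = 13 * κ.length + 20) ∧
        (kcirc κ).ops.countP QOp.isQuery = 3 ∧ (kcirc κ).ops.length = 109 * κ.length + 158 ∧
        Fintype.card (kcirc κ).W = 25 * κ.length + 38) ∧
    VerySlow (fun n => n) ∧
    ∀ (N : ℕ → NMachine) (F : ℕ → OFun) (t : ℕ → ℕ), VerySlow t → ∀ M : ℕ → DMachine t,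
      ∃ B : List Bool → Bool,
        (∀ i x, B ((N i).code i x) = true ↔ (N i).Accepts B x) ∧
        (∀ i x, (kcirc ((F i).code i x)).acceptProb B = if (F i).F B x = true then 1 else 0) ∧
        (∀ n, (kcirc (List.replicate n true)).acceptProb B = 0 ∨
          (kcirc (List.replicate n true)).acceptProb B = 1) ∧
        {n | (kcirc (List.replicate n true)).acceptProb B = 1}.Infinite ∧
        ∀ i, {n | (M i).Accepts B n} ⊆ {n | (kcirc (List.replicate n true)).acceptProb B = 1} →
          {n | (M i).Accepts B n}.Finite := by
  refine ⟨⟨gateSet, gateSet_unitary, fun κ => ⟨kops_gates κ, kops_query κ, kops_queries κ,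
    kops_length κ, kcard κ⟩⟩, verySlow_id, ?_⟩
  intro N F t ht M
  obtain ⟨δ, β, h1, h2⟩ := exists_world N F ht M
  set X := XA N F δ β with hX
  have hacc : ∀ κ, (kcirc κ).acceptProb (BX N X) = if Bit N F β X κ then 1 else 0 := by
    intro κ
    rw [kcirc_acceptProb κ (BX N X) (X κ) (BX_bstr N X κ)]
    have hspec := XA_spec N F δ β κ
    rw [← hX] at hspec
    rw [hspec]
    split_ifs
    · exact (three_query (par κ)).1 _ (δ κ).1.2
    · exact (three_query (par κ)).2 _ (δ κ).2.2
  have hfree : ∀ n, (kcirc (List.replicate n true)).acceptProb (BX N X) =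
      if β n = true then 1 else 0 := by
    intro n
    rw [hacc]
    simp only [Bit_free]
  have hiff : {n | (kcirc (List.replicate n true)).acceptProb (BX N X) = 1} =
      {n | β n = true} := by
    ext n
    rw [Set.mem_setOf_eq, Set.mem_setOf_eq, hfree]
    split_ifs with h
    · simp [h]
    · simp [h]
  refine ⟨BX N X, BX_code N X, ?_, ?_, ?_, ?_⟩
  · intro i x
    rw [hacc]
    simp only [Bit_code]
  · intro n
    rw [hfree]
    split_ifs
    · exact Or.inr rfl
    · exact Or.inl rfl
  · rw [hiff]
    exact h1
  · intro i
    rw [hiff]
    exact h2 i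

end Pool.Agent.Results.MP_2eaaa0_lc.CollapsedHierarchy
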