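import Pool.Agent.Helper67.EQP.Lower
import Pool.Agent.Helper67.EQP.Exact

set_option autoImplicit false

namespace Pool.Agent.Results.MP_2eaaa0_lc.ExactVsAC0

open Pool.Agent.Helper67.EQP

/-- Exact quantum query complexity against constant depth circuits. For every `m ≥ 1` the promise
problem `Yes m` / `No m` on `32 * 4^m + 8^m` bits is decided
* by a quantum algorithm with one query with success probability exactly `3/4`,
* by a quantum algorithm with three queries with certainty,
but for all `h`, `k` there are a distribution on the yes-instances and a distribution on the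
no-instances which no circuit of depth `h` with at most `2^k` gates (over decision trees of depth at
most `k + 5m`, in particular over literals) distinguishes with advantage more than
`160 * (32 (k + 5m))^(h+1) / 2^(m/2)`. -/
theorem result (m : ℕ) (hm : 1 ≤ m) :
    (∃ Q : QueryAlgorithm (Idx m), Q.T = 1 ∧ (∀ x, Yes m x → Q.acceptProb x = 3 / 4) ∧
      ∀ x, No m x → Q.acceptProb x = 1 / 4) ∧
    (∃ Q : QueryAlgorithm (Idx m), Q.T = 3 ∧ (∀ x, Yes m x → Q.acceptProb x = 1) ∧
      ∀ x, No m x → Q.acceptProb x = 0) ∧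
    ∀ h d k s : ℕ, d ≤ k + 5 * m → s ≤ 2 ^ k →
      ∃ μ₁ μ₀ : (Idx m → Bool) → ℝ, IsDist μ₁ ∧ IsDist μ₀ ∧
        (∀ x, ¬ Yes m x → μ₁ x = 0) ∧ (∀ x, ¬ No m x → μ₀ x = 0) ∧
        ∀ C : Circuit (Idx m) h d s, |C.accProb μ₁ - C.accProb μ₀| ≤
          160 * (32 * (k + 5 * m)) ^ (h + 1) / Real.sqrt (2 ^ m) :=
  ⟨(algorithms m).1, (algorithms m).2, fun h d k s hd hs => average_case h d m k s hm hd hs⟩

end Pool.Agent.Results.MP_2eaaa0_lc.ExactVsAC0
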